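import Pool.Agent.H.MP_aa6e80_co.Comb

set_option autoImplicit false

namespace Pool.Agent.H.MP_209e83_co

open Finset Pool.Agent.H.MP_aa6e80_co

/-- type B Eulerian numbers via the recurrence, indexed by an integer. -/
noncomputable def B : ℕ → ℤ → ℝ
  | 0, k => if k = 0 then 1 else 0
  | n + 1, k => (2 * (k : ℝ) + 1) * B n k + (2 * (n : ℝ) - 2 * k + 3) * B n (k - 1)

lemma B_zero (k : ℤ) : B 0 k = if k = 0 then 1 else 0 := rfl

lemma B_succ (n : ℕ) (k : ℤ) :
    B (n + 1) k = (2 * (k : ℝ) + 1) * B n k + (2 * (n : ℝ) - 2 * k + 3) * B n (k - 1) := rfl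

lemma B_neg (n : ℕ) : ∀ k : ℤ, k < 0 → B n k = 0 := by
  induction n with
  | zero => intro k hk; rw [B_zero, if_neg (by omega)]
  | succ n ih => intro k hk; rw [B_succ, ih k hk, ih (k - 1) (by omega)]; ring

lemma B_big (n : ℕ) : ∀ k : ℤ, (n : ℤ) < k → B n k = 0 := by
  induction n with
  | zero => intro k hk; rw [B_zero, if_neg (by omega)]
  | succ n ih =>
    intro k hk
    rw [B_succ, ih k (by push_cast at hk; omega), ih (k - 1) (by push_cast at hk; omega)]; ring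

lemma B_nonneg (n : ℕ) : ∀ k : ℤ, 0 ≤ B n k := by
  induction n with
  | zero => intro k; rw [B_zero]; split_ifs <;> norm_num
  | succ n ih =>
    intro k
    by_cases h0 : k < 0
    · rw [B_neg _ k h0]
    by_cases h1 : (n : ℤ) + 1 < k
    · rw [B_big _ k (by push_cast; omega)]
    rw [B_succ]
    have h2 : (0 : ℝ) ≤ (k : ℝ) := by exact_mod_cast (by omega : (0 : ℤ) ≤ k)
    have h3 : (k : ℝ) ≤ (n : ℝ) + 1 := by exact_mod_cast (by omega : k ≤ (n : ℤ) + 1)
    have := ih k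
    have := ih (k - 1)
    have h4 : (0 : ℝ) ≤ 2 * (n : ℝ) - 2 * k + 3 := by linarith
    positivity

lemma B_at_zero (n : ℕ) : B n 0 = 1 := by
  induction n with
  | zero => simp [B_zero]
  | succ n ih => rw [B_succ, ih, B_neg n (0 - 1) (by omega)]; simp

lemma B_pos (n : ℕ) : ∀ k : ℤ, 0 ≤ k → k ≤ n → 0 < B n k := by
  induction n with
  | zero =>
    intro k h0 h1
    have : k = 0 := by push_cast at h1; omega
    rw [this, B_at_zero]; norm_num
  | succ n ih =>
    intro k h0 h1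
    by_cases hk : k = 0
    · rw [hk, B_at_zero]; norm_num
    rw [B_succ]
    have h2 : (0 : ℝ) ≤ (k : ℝ) := by exact_mod_cast h0
    have h3 : (k : ℝ) ≤ (n : ℝ) + 1 := by exact_mod_cast h1
    have h5 := B_nonneg n k
    have h6 := ih (k - 1) (by omega) (by push_cast at h1; omega)
    have h4 : (0 : ℝ) < 2 * (n : ℝ) - 2 * k + 3 := by linarith
    positivity

lemma B_symm (n : ℕ) : ∀ k : ℤ, B n ((n : ℤ) - k) = B n k := by
  induction n with
  | zero =>
    intro k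
    simp only [B_zero]
    by_cases h0 : k = 0
    · subst h0; simp
    rw [if_neg (by push_cast; omega), if_neg h0]
  | succ n ih =>
    intro k
    rw [B_succ n, B_succ n]
    have e1 : ((n + 1 : ℕ) : ℤ) - k = (n : ℤ) - (k - 1) := by push_cast; ring
    have e2 : ((n + 1 : ℕ) : ℤ) - k - 1 = (n : ℤ) - k := by push_cast; ring
    rw [e2, ih k]
    conv_lhs => rw [e1, ih (k - 1)]
    push_cast; ring

lemma S_step' (P k t u v w : ℝ) (hP : 1 ≤ P) (hk : 0 ≤ k) (ht : 0 ≤ t) (hu : 0 < u) (hv : 0 < v)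
    (hw : 0 ≤ w) (h1 : P ^ 3 * (u * w) ≤ (P - 1) ^ 3 * v ^ 2)
    (h2 : (P + 1) ^ 3 * (t * v) ≤ P ^ 3 * u ^ 2) :
    (P + 1) ^ 3 * ((k * u + (P + 1) * t) * ((k + 2) * w + (P - 1) * v))
      ≤ P ^ 3 * ((k + 1) * v + P * u) ^ 2 := by
  have hP0 : 0 < P := by linarith
  have hP3 : 0 < P ^ 3 := by positivity
  have hP1 : 0 ≤ P - 1 := by linarith
  have h3 : (P + 1) ^ 3 * (t * w) ≤ (P - 1) ^ 3 * (u * v) := by
    have hm : (P ^ 3 * (u * w)) * ((P + 1) ^ 3 * (t * v))
        ≤ ((P - 1) ^ 3 * v ^ 2) * (P ^ 3 * u ^ 2) :=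
      mul_le_mul h1 h2 (by positivity) (by positivity)
    have hc : 0 < P ^ 3 * (u * v) := by positivity
    have : (P ^ 3 * (u * v)) * ((P + 1) ^ 3 * (t * w))
        ≤ (P ^ 3 * (u * v)) * ((P - 1) ^ 3 * (u * v)) := by nlinarith [hm]
    exact le_of_mul_le_mul_left this hc
  have g1 : (P + 1) ^ 3 * (u * w) ≤ P ^ 3 * v ^ 2 := by
    have hq : ((P + 1) * (P - 1)) ^ 3 ≤ (P * P) ^ 3 :=
      pow_le_pow_left₀ (by positivity) (by nlinarith) 3
    have hm : (P + 1) ^ 3 * (P ^ 3 * (u * w)) ≤ (P + 1) ^ 3 * ((P - 1) ^ 3 * v ^ 2) :=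
      mul_le_mul_of_nonneg_left h1 (by positivity)
    have hm2 : ((P + 1) * (P - 1)) ^ 3 * v ^ 2 ≤ (P * P) ^ 3 * v ^ 2 :=
      mul_le_mul_of_nonneg_right hq (by positivity)
    have : P ^ 3 * ((P + 1) ^ 3 * (u * w)) ≤ P ^ 3 * (P ^ 3 * v ^ 2) := by nlinarith [hm, hm2]
    exact le_of_mul_le_mul_left this hP3
  have a1 : k * (k + 2) * ((P + 1) ^ 3 * (u * w)) ≤ k * (k + 2) * (P ^ 3 * v ^ 2) :=
    mul_le_mul_of_nonneg_left g1 (by positivity)
  have a2 : (P + 1) * (P - 1) * ((P + 1) ^ 3 * (t * v)) ≤ (P + 1) * (P - 1) * (P ^ 3 * u ^ 2) :=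
    mul_le_mul_of_nonneg_left h2 (by positivity)
  have a3 : (P + 1) * (k + 2) * ((P + 1) ^ 3 * (t * w))
      ≤ (P + 1) * (k + 2) * ((P - 1) ^ 3 * (u * v)) :=
    mul_le_mul_of_nonneg_left h3 (by positivity)
  have b1 : 0 ≤ P ^ 3 * v ^ 2 := by positivity
  have b2 : 0 ≤ P ^ 3 * u ^ 2 := by positivity
  have b3 : 0 ≤ (2 * (k + 1) + 4 * P * ((P + 1) * (P - 1))) * (u * v) := by positivity
  have e : P ^ 3 * ((k + 1) * v + P * u) ^ 2
      - (P + 1) ^ 3 * ((k * u + (P + 1) * t) * ((k + 2) * w + (P - 1) * v))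
      = (k * (k + 2) * (P ^ 3 * v ^ 2) - k * (k + 2) * ((P + 1) ^ 3 * (u * w)))
        + ((P + 1) * (P - 1) * (P ^ 3 * u ^ 2) - (P + 1) * (P - 1) * ((P + 1) ^ 3 * (t * v)))
        + ((P + 1) * (k + 2) * ((P - 1) ^ 3 * (u * v))
            - (P + 1) * (k + 2) * ((P + 1) ^ 3 * (t * w)))
        + P ^ 3 * v ^ 2 + P ^ 3 * u ^ 2
        + (2 * (k + 1) + 4 * P * ((P + 1) * (P - 1))) * (u * v) := by ring
  linarith

/-- strong log-concavity -/
lemma S_all (m : ℕ) : ∀ k : ℤ, ((m : ℝ) - k + 3 / 2) ^ 3 * (B m (k - 1) * B m (k + 1))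
    ≤ ((m : ℝ) - k + 1 / 2) ^ 3 * B m k ^ 2 := by
  have hz : ∀ (m : ℕ) (k : ℤ), B m (k - 1) * B m (k + 1) = 0 →
      ((m : ℝ) - k + 3 / 2) ^ 3 * (B m (k - 1) * B m (k + 1))
        ≤ ((m : ℝ) - k + 1 / 2) ^ 3 * B m k ^ 2 := by
    intro m k h
    rw [h, mul_zero]
    by_cases h1 : k ≤ (m : ℤ)
    · have : (k : ℝ) ≤ (m : ℝ) := by exact_mod_cast h1
      have h2 : (0 : ℝ) ≤ (m : ℝ) - k + 1 / 2 := by linarith
      positivity
    · rw [B_big m k (by omega)]; simp
  induction m with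
  | zero =>
    intro k
    apply hz
    by_cases h0 : k ≤ 0
    · rw [B_neg _ (k - 1) (by omega), zero_mul]
    · rw [B_big _ (k + 1) (by push_cast; omega), mul_zero]
  | succ m ih =>
    intro k
    by_cases h0 : k ≤ 0
    · apply hz; rw [B_neg _ (k - 1) (by omega), zero_mul]
    by_cases h1 : (m : ℤ) < k
    · apply hz; rw [B_big _ (k + 1) (by push_cast; omega), mul_zero]
    have hk1 : (1 : ℝ) ≤ (k : ℝ) := by exact_mod_cast (by omega : (1 : ℤ) ≤ k)
    have hk2 : (k : ℝ) ≤ (m : ℝ) := by exact_mod_cast (by omega : k ≤ (m : ℤ))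
    have i1 := ih k
    have i2 := ih (k - 1)
    have e0 : k - 1 + 1 = k := by ring
    rw [e0] at i2
    have hs := S_step' ((m : ℝ) - k + 3 / 2) (k - 1 / 2) (B m (k - 1 - 1)) (B m (k - 1)) (B m k)
      (B m (k + 1))
      (by linarith) (by linarith) (B_nonneg _ _) (B_pos _ _ (by omega) (by omega))
      (B_pos _ _ (by omega) (by omega)) (B_nonneg _ _)
      (by convert i1 using 3; ring) (by convert i2 using 3 <;> push_cast <;> ring)
    have hs4 := mul_le_mul_of_nonneg_left hs (show (0 : ℝ) ≤ 4 by norm_num)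
    rw [B_succ, B_succ, B_succ]
    have e1 : k + 1 - 1 = k := by ring
    rw [e1]
    push_cast
    linarith [hs4]

lemma Q_all (m : ℕ) : ∀ k : ℤ, k < m → (2 * (k : ℝ) - m) * B m (k + 1)
    ≤ ((m : ℝ) - k - 1 / 2) * B m k := by
  have key : ∀ (m : ℕ) (k : ℤ), k < m → 2 * k ≤ (m : ℤ) →
      (2 * (k : ℝ) - m) * B m (k + 1) ≤ ((m : ℝ) - k - 1 / 2) * B m k := by
    intro m k h1 h2
    have h3 : 2 * (k : ℝ) ≤ (m : ℝ) := by exact_mod_cast h2
    have h4 : (k : ℝ) + 1 ≤ (m : ℝ) := by exact_mod_cast (by omega : k + 1 ≤ (m : ℤ))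
    have := B_nonneg m (k + 1)
    have := B_nonneg m k
    nlinarith
  induction m with
  | zero => intro k hk; apply key _ _ hk; push_cast at hk ⊢; omega
  | succ m ih =>
    intro k hk
    by_cases h : 2 * k ≤ ((m + 1 : ℕ) : ℤ)
    · exact key _ _ hk h
    have h1 : (m : ℤ) + 2 ≤ 2 * k := by push_cast at h; omega
    have h2 : k ≤ (m : ℤ) := by push_cast at hk; omega
    have h3 : (m : ℝ) + 2 ≤ 2 * (k : ℝ) := by exact_mod_cast h1
    have h4 : (k : ℝ) ≤ (m : ℝ) := by exact_mod_cast h2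
    have e1 : k + 1 - 1 = k := by ring
    rw [B_succ m (k + 1), B_succ m k, e1]
    by_cases h5 : k = m
    · rw [B_big m (k + 1) (by omega)]
      have h6 : (k : ℝ) = m := by exact_mod_cast h5
      have := B_nonneg m k
      have := B_nonneg m (k - 1)
      push_cast
      rw [h6]
      nlinarith
    have i1 := ih (k - 1) (by omega)
    have i2 := ih k (by omega)
    have e0 : k - 1 + 1 = k := by ring
    rw [e0] at i1
    have hs := Q_step ((m : ℝ) - k + 1 / 2) (2 * k - m - 2) (B m (k - 1)) (B m k)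
      (B m (k + 1)) (by linarith) (by linarith) (B_nonneg _ _)
      (by convert i1 using 2 <;> push_cast <;> ring) (by convert i2 using 2 <;> ring)
    have hs2 := mul_le_mul_of_nonneg_left hs (show (0 : ℝ) ≤ 2 by norm_num)
    push_cast
    linarith [hs2]

/-- adjacent form of the key monotonicity -/
lemma F3_adj (m : ℕ) (k : ℤ) (h1 : k < (m : ℤ)) :
    (((m : ℝ) - k + 3 / 2) * B (m + 1) k) * B m (k + 1)
      ≤ (((m : ℝ) - (k + 1) + 3 / 2) * B (m + 1) (k + 1)) * B m k := by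
  have hs := S_all m k
  have hq := Q_all m k h1
  rw [B_succ m (k + 1), B_succ m k]
  have e1 : k + 1 - 1 = k := by ring
  rw [e1]
  push_cast at hs ⊢
  have h4 : (k : ℝ) ≤ (m : ℝ) := by exact_mod_cast h1.le
  set u := B m (k - 1)
  set v := B m k
  set w := B m (k + 1)
  have hv : 0 ≤ v := B_nonneg _ _
  obtain ⟨p, hp⟩ : ∃ p : ℝ, p = (m : ℝ) - k + 1 / 2 := ⟨_, rfl⟩
  have hm : (m : ℝ) = p - 1 / 2 + k := by linarith
  rw [hm] at hs hq ⊢
  have hp1 : 0 ≤ p := by linarith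
  have a1 : (p + 1) * v * ((2 * k - (p - 1 / 2 + k)) * w)
      ≤ (p + 1) * v * ((p - 1 / 2 + k - k - 1 / 2) * v) :=
    mul_le_mul_of_nonneg_left hq (by positivity)
  have b : 0 ≤ v ^ 2 := by positivity
  have : (p + 1) * ((p - 1 / 2 + k - k + 3 / 2) * ((2 * k + 1) * v
        + (2 * (p - 1 / 2 + k) - 2 * k + 3) * u) * w)
      ≤ (p + 1) * ((p - 1 / 2 + k - (k + 1) + 3 / 2) * ((2 * (k + 1) + 1) * w
        + (2 * (p - 1 / 2 + k) - 2 * (k + 1) + 3) * v) * v) := by nlinarith [hs, a1, b]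
  exact le_of_mul_le_mul_left this (by positivity)

lemma F3 (m : ℕ) (l k : ℤ) (h : l ≤ k) :
    (((m : ℝ) - l + 3 / 2) * B (m + 1) l) * B m k
      ≤ (((m : ℝ) - k + 3 / 2) * B (m + 1) k) * B m l := by
  have hC : ∀ j : ℤ, 0 ≤ ((m : ℝ) - j + 3 / 2) * B (m + 1) j := by
    intro j
    by_cases hj : j ≤ (m : ℤ) + 1
    · have : (j : ℝ) ≤ (m : ℝ) + 1 := by exact_mod_cast hj
      exact mul_nonneg (by linarith) (B_nonneg _ _)
    · rw [B_big _ j (by push_cast; omega), mul_zero]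
  by_cases h0 : l < 0
  · rw [B_neg _ l h0, B_neg _ l h0]; simp
  induction k, h using Int.le_induction with
  | base => exact le_refl _
  | succ k hk ih =>
    by_cases h1 : (m : ℤ) ≤ k
    · rw [B_big m (k + 1) (by omega), mul_zero]
      exact mul_nonneg (hC _) (B_nonneg _ _)
    have hpos : 0 < B m k := B_pos _ _ (by omega) (by omega)
    have ha := F3_adj m k (by omega)
    have a1 := mul_le_mul_of_nonneg_right ih (B_nonneg m (k + 1))
    have a2 := mul_le_mul_of_nonneg_right ha (B_nonneg m l)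
    push_cast
    have : B m k * ((((m : ℝ) - l + 3 / 2) * B (m + 1) l) * B m (k + 1))
        ≤ B m k * ((((m : ℝ) - (k + 1) + 3 / 2) * B (m + 1) (k + 1)) * B m l) := by
      nlinarith [a1, a2]
    exact le_of_mul_le_mul_left this hpos

lemma F1 (m : ℕ) (l k : ℤ) (h : l ≤ k) :
    B (m + 1) l * B m k ≤ B (m + 1) k * B m l := by
  have hR : 0 ≤ B (m + 1) k * B m l := mul_nonneg (B_nonneg _ _) (B_nonneg _ _)
  by_cases h1 : (m : ℤ) < k
  · rw [B_big m k h1, mul_zero]; exact hR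
  have h2 : (l : ℝ) ≤ (k : ℝ) := by exact_mod_cast h
  have h3 : (k : ℝ) ≤ (m : ℝ) := by exact_mod_cast (by omega : k ≤ (m : ℤ))
  have h4 := F3 m l k h
  have a1 : 0 ≤ ((k : ℝ) - l) * (B (m + 1) k * B m l) := mul_nonneg (by linarith) hR
  have : ((m : ℝ) - l + 3 / 2) * (B (m + 1) l * B m k)
      ≤ ((m : ℝ) - l + 3 / 2) * (B (m + 1) k * B m l) := by nlinarith [h4, a1]
  exact le_of_mul_le_mul_left this (by linarith)

lemma F2 (m : ℕ) (k j : ℤ) (h : k ≤ j) :
    B (m + 1) j * B m (k - 1) ≤ B (m + 1) k * B m (j - 1) := by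
  have h1 := F1 m ((m : ℤ) + 1 - j) ((m : ℤ) + 1 - k) (by omega)
  have e1 := B_symm (m + 1) j
  have e2 := B_symm (m + 1) k
  have e3 := B_symm m (j - 1)
  have e4 := B_symm m (k - 1)
  push_cast at e1 e2
  have c3 : (m : ℤ) - (j - 1) = m + 1 - j := by ring
  have c4 : (m : ℤ) - (k - 1) = m + 1 - k := by ring
  rw [c3] at e3
  rw [c4] at e4
  rw [e1, e2, e3, e4] at h1
  exact h1

/-- the transform, summed over `range N` -/
noncomputable def ZB (N n : ℕ) (x : ℕ → ℝ) : ℝ := ∑ k ∈ range N, B n k * x k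

lemma ZB_succ (N n : ℕ) (hN : n < N) (x : ℕ → ℝ) :
    ZB (N + 1) (n + 1) x
      = ZB (N + 1) n (fun d => (2 * (d : ℝ) + 1) * x d + (2 * (n : ℝ) - 2 * d + 1) * x (d + 1)) := by
  unfold ZB
  simp only [B_succ]
  have e1 : ∑ k ∈ range (N + 1), (2 * (n : ℝ) - 2 * ((k : ℤ) : ℝ) + 3) * B n ((k : ℤ) - 1) * x k
      = ∑ k ∈ range (N + 1), B n k * ((2 * (n : ℝ) - 2 * k + 1) * x (k + 1)) := by
    rw [Finset.sum_range_succ', Finset.sum_range_succ (n := N),
      B_big n N (by exact_mod_cast hN), B_neg n (((0 : ℕ) : ℤ) - 1) (by simp)]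
    simp only [mul_zero, zero_mul, add_zero]
    refine Finset.sum_congr rfl fun k _ => ?_
    have : ((k + 1 : ℕ) : ℤ) - 1 = k := by push_cast; ring
    rw [this]; push_cast; ring
  have e2 : ∀ k ∈ range (N + 1), ((2 * (((k : ℕ) : ℤ) : ℝ) + 1) * B n k
      + (2 * (n : ℝ) - 2 * ((k : ℤ) : ℝ) + 3) * B n ((k : ℤ) - 1)) * x k
      = B n k * ((2 * (k : ℝ) + 1) * x k)
        + (2 * (n : ℝ) - 2 * ((k : ℤ) : ℝ) + 3) * B n ((k : ℤ) - 1) * x k := by
    intro k _; push_cast; ring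
  rw [Finset.sum_congr rfl e2, Finset.sum_add_distrib, e1, ← Finset.sum_add_distrib]
  refine Finset.sum_congr rfl fun k _ => ?_
  ring

lemma ZB_ext (N n : ℕ) (hN : n < N) (x : ℕ → ℝ) : ZB (N + 1) n x = ZB N n x := by
  unfold ZB
  rw [Finset.sum_range_succ, B_big n N (by exact_mod_cast hN)]
  simp

lemma ZB_ext' (N n : ℕ) (hN : n < N) (x : ℕ → ℝ) : ZB N n x = ZB (n + 1) n x := by
  induction N, hN using Nat.le_induction with
  | base => rfl
  | succ N h ih => rw [ZB_ext N n h, ih]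

theorem main_big (x : ℕ → ℝ) (h0 : ∀ n, 0 ≤ x n) (h : ∀ k, x (k + 1) ^ 2 ≤ x k * x (k + 2))
    (m N : ℕ) (hN : m + 1 < N) :
    ZB (N + 1) (m + 1) x ^ 2 ≤ ZB (N + 1) m x * ZB (N + 1) (m + 2) x := by
  have e3 := ZB_succ N (m + 1) hN x
  have e2 := ZB_succ N m (by omega) x
  have t1 : 0 ≤ ∑ k ∈ range (N + 1), ∑ l ∈ range (N + 1),
      B (m + 1) k * B m l * (((k : ℝ) - l) * (x k * x l)) := by
    apply sum_sym_nonneg
    intro k l
    have hx : 0 ≤ x k * x l := mul_nonneg (h0 _) (h0 _)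
    rcases le_total k l with hkl | hkl
    · have f := F1 m k l (by exact_mod_cast hkl)
      have c : (k : ℝ) ≤ l := by exact_mod_cast hkl
      have := mul_nonneg (mul_nonneg (sub_nonneg.2 f) (sub_nonneg.2 c)) hx
      nlinarith [this]
    · have f := F1 m l k (by exact_mod_cast hkl)
      have c : (l : ℝ) ≤ k := by exact_mod_cast hkl
      have := mul_nonneg (mul_nonneg (sub_nonneg.2 f) (sub_nonneg.2 c)) hx
      nlinarith [this]
  have t2 : 0 ≤ ∑ k ∈ range (N + 1), ∑ l ∈ range (N + 1),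
      B (m + 1) k * B m l * (((m : ℝ) - k + 3 / 2) * (x (k + 1) * x l - x k * x (l + 1))) := by
    apply sum_sym_nonneg
    intro k l
    rcases le_total k l with hkl | hkl
    · have f := F3 m k l (by exact_mod_cast hkl)
      have c := lcx_cross x h0 h k l hkl
      have := mul_nonneg (sub_nonneg.2 f) (sub_nonneg.2 c)
      push_cast at this
      nlinarith [this]
    · have f := F3 m l k (by exact_mod_cast hkl)
      have c := lcx_cross x h0 h l k hkl
      have := mul_nonneg (sub_nonneg.2 f) (sub_nonneg.2 c)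
      push_cast at this
      nlinarith [this]
  have t3 : 0 ≤ ∑ k ∈ range (N + 2), ∑ j ∈ range (N + 2),
      B (m + 1) k * B m ((j : ℤ) - 1) * (((j : ℝ) - k) * (x k * x j)) := by
    apply sum_sym_nonneg
    intro k l
    have hx : 0 ≤ x k * x l := mul_nonneg (h0 _) (h0 _)
    rcases le_total k l with hkl | hkl
    · have f := F2 m k l (by exact_mod_cast hkl)
      have c : (k : ℝ) ≤ l := by exact_mod_cast hkl
      have := mul_nonneg (mul_nonneg (sub_nonneg.2 f) (sub_nonneg.2 c)) hx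
      nlinarith [this]
    · have f := F2 m l k (by exact_mod_cast hkl)
      have c : (l : ℝ) ≤ k := by exact_mod_cast hkl
      have := mul_nonneg (mul_nonneg (sub_nonneg.2 f) (sub_nonneg.2 c)) hx
      nlinarith [this]
  have t3' : ∑ k ∈ range (N + 2), ∑ j ∈ range (N + 2),
      B (m + 1) k * B m ((j : ℤ) - 1) * (((j : ℝ) - k) * (x k * x j))
      = ∑ k ∈ range (N + 1), ∑ l ∈ range (N + 1),
      B (m + 1) k * B m l * (((l : ℝ) + 1 - k) * (x k * x (l + 1))) := by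
    rw [Finset.sum_range_succ (n := N + 1),
      B_big (m + 1) ((N + 1 : ℕ) : ℤ) (by push_cast; omega)]
    simp only [zero_mul, Finset.sum_const_zero, add_zero]
    refine Finset.sum_congr rfl fun k _ => ?_
    rw [Finset.sum_range_succ', B_neg m (((0 : ℕ) : ℤ) - 1) (by simp)]
    simp only [mul_zero, zero_mul, add_zero]
    refine Finset.sum_congr rfl fun l _ => ?_
    have : ((l + 1 : ℕ) : ℤ) - 1 = l := by push_cast; ring
    rw [this]; push_cast; ring
  rw [t3'] at t3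
  have key : ZB (N + 1) (m + 2) x * ZB (N + 1) m x - ZB (N + 1) (m + 1) x * ZB (N + 1) (m + 1) x
      = ∑ k ∈ range (N + 1), ∑ l ∈ range (N + 1),
        (2 * (B (m + 1) k * B m l * (((k : ℝ) - l) * (x k * x l)))
        + 2 * (B (m + 1) k * B m l
          * (((m : ℝ) - k + 3 / 2) * (x (k + 1) * x l - x k * x (l + 1))))
        + 2 * (B (m + 1) k * B m l * (((l : ℝ) + 1 - k) * (x k * x (l + 1))))) := by
    nth_rewrite 2 [e2]
    rw [e3]
    unfold ZB
    rw [Finset.sum_mul_sum, Finset.sum_mul_sum, ← Finset.sum_sub_distrib]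
    refine Finset.sum_congr rfl fun k _ => ?_
    rw [← Finset.sum_sub_distrib]
    refine Finset.sum_congr rfl fun l _ => ?_
    push_cast; ring
  simp only [Finset.sum_add_distrib, ← Finset.mul_sum] at key
  nlinarith [key, t1, t2, t3]

theorem main_alg (x : ℕ → ℝ) (h0 : ∀ n, 0 ≤ x n) (h : ∀ k, x (k + 1) ^ 2 ≤ x k * x (k + 2))
    (n : ℕ) : ZB (n + 2) (n + 1) x ^ 2 ≤ ZB (n + 1) n x * ZB (n + 3) (n + 2) x := by
  have := main_big x h0 h n (n + 2) (by omega)
  rw [ZB_ext' _ _ (by omega), ZB_ext' (n + 2 + 1) n (by omega)] at this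
  exact this

end Pool.Agent.H.MP_209e83_co
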