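import Mathlib

set_option autoImplicit false

namespace Pool.Agent.H.MP_209e83_co

/-- The set `{±1, …, ±n}`. -/
abbrev PM (n : ℕ) : Type := {i : ℤ // i ≠ 0 ∧ |i| ≤ (n : ℤ)}

/-- Negation on `{±1, …, ±n}`. -/
def PM.neg {n : ℕ} (i : PM n) : PM n := ⟨-i.1, neg_ne_zero.2 i.2.1, by rw [abs_neg]; exact i.2.2⟩

/-- A signed permutation of `[n]`: a bijection `w` of `{±1, …, ±n}` with `w(-i) = -w(i)`. -/
def IsSigned {n : ℕ} (w : Equiv.Perm (PM n)) : Prop := ∀ i : PM n, (w i.neg).1 = -(w i).1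

/-- The value `w(i)` for `i ∈ {±1, …, ±n}`, extended by `w(0) = 0`. -/
def val {n : ℕ} (w : Equiv.Perm (PM n)) (i : ℤ) : ℤ :=
  if h : i ≠ 0 ∧ |i| ≤ (n : ℤ) then (w ⟨i, h⟩).1 else 0

/-- The number of type B descents: indices `i ∈ {0, …, n-1}` with `w(i) > w(i+1)`. -/
def desB {n : ℕ} (w : Equiv.Perm (PM n)) : ℕ :=
  ((Finset.range n).filter (fun i : ℕ => val w ((i : ℤ) + 1) < val w (i : ℤ))).card

/-- The type B Eulerian number: signed permutations of `[n]` with exactly `k` type B descents. -/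
noncomputable def typeB (n k : ℕ) : ℕ :=
  Nat.card {w : Equiv.Perm (PM n) // IsSigned w ∧ desB w = k}

/-- A log-convex sequence of nonnegative reals. -/
def LogConvex (a : ℕ → ℝ) : Prop := (∀ k, 0 ≤ a k) ∧ ∀ k, a (k + 1) ^ 2 ≤ a k * a (k + 2)

end Pool.Agent.H.MP_209e83_co
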