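import Pool.Agent.H.MP_209e83_co.Alg
import Pool.Agent.H.MP_209e83_co.Defs

set_option autoImplicit false

namespace Pool.Agent.H.MP_209e83_co

open Finset Pool.Agent.H.MP_aa6e80_co

/-- number of descents of `a :: l` -/
def desZ : ℤ → List ℤ → ℕ
  | _, [] => 0
  | a, y :: ys => (if y < a then 1 else 0) + desZ y ys

lemma ins_max (t : ℤ) (l : List ℤ) (hl : ∀ y ∈ l, y < t) : ∀ (a : ℤ) (_ : a ≤ t) (x : ℕ → ℝ),
    ((List.permutations'Aux t l).map (fun l' => x (desZ a l'))).sum
      = ((desZ a l : ℝ) + 1) * x (desZ a l) + ((l.length : ℝ) - desZ a l) * x (desZ a l + 1) := by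
  induction l with
  | nil =>
    intro a ha x
    simp [List.permutations'Aux, desZ, not_lt.2 ha]
  | cons y ys ih =>
    intro a ha x
    have hy : y < t := hl y (by simp)
    have ih' := ih (fun z hz => hl z (by simp [hz])) y hy.le
    simp only [List.permutations'Aux, List.map_cons, List.sum_cons, List.map_map,
      Function.comp_def, desZ, if_neg (not_lt.2 ha), if_pos hy, List.length_cons]
    by_cases h : y < a
    · simp only [if_pos h]
      have := ih' (fun d => x (1 + d))
      rw [this]
      have e : 1 + (desZ y ys + 1) = 1 + desZ y ys + 1 := by ring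
      simp only [e, zero_add]
      push_cast; ring
    · simp only [if_neg h, zero_add]
      rw [ih' x]
      have e : 1 + desZ y ys = desZ y ys + 1 := by ring
      rw [e]
      push_cast; ring

lemma ins_min (t : ℤ) (l : List ℤ) (hl : ∀ y ∈ l, t < y) : ∀ (a : ℤ) (_ : t < a) (x : ℕ → ℝ),
    ((List.permutations'Aux t l).map (fun l' => x (desZ a l'))).sum
      = (desZ a l : ℝ) * x (desZ a l) + ((l.length : ℝ) - desZ a l + 1) * x (desZ a l + 1) := by
  induction l with
  | nil =>
    intro a ha x
    simp [List.permutations'Aux, desZ, ha]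
  | cons y ys ih =>
    intro a ha x
    have hy : t < y := hl y (by simp)
    have ih' := ih (fun z hz => hl z (by simp [hz])) y hy
    simp only [List.permutations'Aux, List.map_cons, List.sum_cons, List.map_map,
      Function.comp_def, desZ, if_neg (not_lt.2 hy.le), if_pos ha, List.length_cons]
    by_cases h : y < a
    · simp only [if_pos h]
      have := ih' (fun d => x (1 + d))
      rw [this]
      have e : 1 + (desZ y ys + 1) = 1 + desZ y ys + 1 := by ring
      simp only [e, zero_add]
      push_cast; ring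
    · simp only [if_neg h, zero_add]
      rw [ih' x]
      have e : 1 + desZ y ys = desZ y ys + 1 := by ring
      rw [e]
      push_cast; ring

/-- signed value -/
def sg (S : Finset ℕ) (v : ℕ) : ℤ := if v ∈ S then -((v : ℤ) + 1) else (v : ℤ) + 1

lemma sg_natAbs (S : Finset ℕ) (v : ℕ) : (sg S v).natAbs = v + 1 := by
  unfold sg; split_ifs <;> omega

lemma map_aux (f : ℕ → ℤ) (t : ℕ) (l : List ℕ) :
    (List.permutations'Aux t l).map (List.map f) = List.permutations'Aux (f t) (l.map f) := by
  induction l with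
  | nil => simp [List.permutations'Aux]
  | cons y ys ih =>
    simp only [List.permutations'Aux, List.map_cons, List.map_map, ← ih]
    simp [Function.comp_def]

lemma list_sum_add (L : List (List ℕ)) (f g : List ℕ → ℝ) :
    (L.map f).sum + (L.map g).sum = (L.map (fun l => f l + g l)).sum := by
  induction L with
  | nil => simp
  | cons a L ih => simp only [List.map_cons, List.sum_cons, ← ih]; ring

lemma arrB_sum (n : ℕ) : ∀ x : ℕ → ℝ,
    ∑ S ∈ (range n).powerset, ((arr n).map (fun l => x (desZ 0 (l.map (sg S))))).sum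
      = ZB (n + 1) n x := by
  induction n with
  | zero => intro x; simp [arr, List.permutations', desZ, ZB, B_zero]
  | succ n ih =>
    intro x
    rw [ZB_succ (n + 1) n (by omega), ZB_ext (n + 1) n (by omega), ← ih, Finset.range_add_one,
      Finset.sum_powerset_insert (by simp), ← Finset.sum_add_distrib]
    refine Finset.sum_congr rfl fun S hS => ?_
    have hnS : n ∉ S := fun h => by simpa using Finset.mem_powerset.1 hS h
    rw [arr_succ, sum_flat, sum_flat, list_sum_add]
    congr 1
    refine List.map_congr_left fun l hl => ?_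
    have hp := (mem_arr n l).1 hl
    have hlt : ∀ y ∈ l, y < n := fun y hy => List.mem_range.1 (hp.subset hy)
    have e0 : ∀ T : Finset ℕ, (List.permutations'Aux n l).map
        (fun l' => x (desZ 0 (l'.map (sg T))))
        = (List.permutations'Aux (sg T n) (l.map (sg T))).map (fun l' => x (desZ 0 l')) := by
      intro T
      rw [← map_aux, List.map_map]; rfl
    have e1 : l.map (sg (insert n S)) = l.map (sg S) := by
      refine List.map_congr_left fun y hy => ?_
      have := hlt y hy
      unfold sg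
      simp only [Finset.mem_insert, show y ≠ n by omega, false_or]
    have e2 : sg S n = (n : ℤ) + 1 := by unfold sg; rw [if_neg hnS]
    have e3 : sg (insert n S) n = -((n : ℤ) + 1) := by unfold sg; rw [if_pos (by simp)]
    have hb : ∀ y ∈ l.map (sg S), y.natAbs ≤ n := by
      intro y hy
      obtain ⟨v, hv, rfl⟩ := List.mem_map.1 hy
      rw [sg_natAbs]; exact hlt v hv
    rw [e0, e0, e1, e2, e3,
      ins_max _ _ (fun y hy => by have := hb y hy; omega) 0 (by omega) x,
      ins_min _ _ (fun y hy => by have := hb y hy; omega) 0 (by omega) x,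
      List.length_map, hp.length_eq, List.length_range]
    ring

lemma desZ_eq (l : List ℤ) : ∀ a : ℤ, desZ a l
    = ∑ i ∈ range l.length, if (a :: l).getD (i + 1) 0 < (a :: l).getD i 0 then 1 else 0 := by
  induction l with
  | nil => intro a; simp [desZ]
  | cons y ys ih =>
    intro a
    rw [desZ, ih y, List.length_cons, Finset.sum_range_succ', add_comm]
    simp

instance (n : ℕ) : Finite (PM n) := by
  have : ({i : ℤ | i ≠ 0 ∧ |i| ≤ (n : ℤ)}).Finite :=
    (Set.finite_Icc (-(n : ℤ)) n).subset fun i hi => abs_le.1 hi.2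
  exact this

/-- index of an element of `PM n` -/
def idx {n : ℕ} (i : PM n) : Fin n :=
  ⟨i.1.natAbs - 1, by have h1 := i.2.1; have h2 := abs_le.1 i.2.2; omega⟩

/-- positive element -/
def pos {n : ℕ} (i : Fin n) : PM n :=
  ⟨(i.1 : ℤ) + 1, by omega, by have := i.2; rw [abs_le]; omega⟩

/-- the underlying map -/
def gmap {n : ℕ} (S : Finset ℕ) (σ : Equiv.Perm (Fin n)) (i : PM n) : PM n :=
  ⟨if 0 < i.1 then sg S (σ (idx i)) else -sg S (σ (idx i)), by
    have h1 := sg_natAbs S (σ (idx i))
    have h2 := (σ (idx i)).2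
    rw [abs_le]
    split_ifs <;> omega⟩

lemma gmap_inj {n : ℕ} (S : Finset ℕ) (σ : Equiv.Perm (Fin n)) :
    Function.Injective (gmap S σ) := by
  intro i j hij
  have h : (if 0 < i.1 then sg S (σ (idx i)) else -sg S (σ (idx i)))
      = (if 0 < j.1 then sg S (σ (idx j)) else -sg S (σ (idx j))) := congrArg Subtype.val hij
  have h1 := sg_natAbs S (σ (idx i))
  have h2 := sg_natAbs S (σ (idx j))
  have h3 : σ (idx i) = σ (idx j) := by
    apply Fin.ext
    split_ifs at h <;> omega
  have h4 : idx i = idx j := σ.injective h3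
  have h5 : i.1.natAbs - 1 = j.1.natAbs - 1 := congrArg Fin.val h4
  rw [h3] at h
  have hi := i.2.1
  have hj := j.2.1
  apply Subtype.ext
  split_ifs at h <;> omega

/-- the signed permutation -/
noncomputable def mk {n : ℕ} (S : Finset ℕ) (σ : Equiv.Perm (Fin n)) : Equiv.Perm (PM n) :=
  Equiv.ofBijective (gmap S σ) (Finite.injective_iff_bijective.1 (gmap_inj S σ))

lemma mk_val {n : ℕ} (S : Finset ℕ) (σ : Equiv.Perm (Fin n)) (i : PM n) :
    (mk S σ i).1 = if 0 < i.1 then sg S (σ (idx i)) else -sg S (σ (idx i)) := rfl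

lemma idx_neg {n : ℕ} (i : PM n) : idx i.neg = idx i := by
  apply Fin.ext
  simp [idx, PM.neg]

lemma idx_pos {n : ℕ} (i : Fin n) : idx (pos i) = i := by
  apply Fin.ext
  simp only [idx, pos]
  omega

lemma mk_signed {n : ℕ} (S : Finset ℕ) (σ : Equiv.Perm (Fin n)) : IsSigned (mk S σ) := by
  intro i
  rw [mk_val, mk_val, idx_neg]
  have h1 := i.2.1
  have h2 : i.neg.1 = -i.1 := rfl
  rw [h2]
  split_ifs <;> omega

lemma mk_pos {n : ℕ} (S : Finset ℕ) (σ : Equiv.Perm (Fin n)) (i : Fin n) :
    (mk S σ (pos i)).1 = sg S (σ i) := by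
  rw [mk_val, idx_pos, if_pos (by simp only [pos]; omega)]

lemma signed_ext {n : ℕ} (w v : Equiv.Perm (PM n)) (hw : IsSigned w) (hv : IsSigned v)
    (h : ∀ i : Fin n, (w (pos i)).1 = (v (pos i)).1) : w = v := by
  ext i
  have h1 := i.2.1
  by_cases hi : 0 < i.1
  · have : i = pos (idx i) := by
      apply Subtype.ext
      simp only [pos, idx]
      omega
    rw [this]; exact h _
  · have : i = (pos (idx i)).neg := by
      apply Subtype.ext
      simp only [pos, idx, PM.neg]
      omega
    rw [this, hw, hv, h]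

lemma val_mk {n : ℕ} (S : Finset ℕ) (σ : Equiv.Perm (Fin n)) (i : ℕ) (hi : i ≤ n) :
    val (mk S σ) (i : ℤ) = ((0 : ℤ) :: (lst σ).map (sg S)).getD i 0 := by
  cases i with
  | zero => simp [val]
  | succ j =>
    have hj : j < n := by omega
    have e := mk_pos S σ ⟨j, hj⟩
    unfold val
    have hc : ((j + 1 : ℕ) : ℤ) ≠ 0 ∧ |((j + 1 : ℕ) : ℤ)| ≤ (n : ℤ) :=
      (pos (⟨j, hj⟩ : Fin n)).2
    rw [dif_pos hc, List.getD_cons_succ,
      List.getD_eq_getElem _ _ (by simpa [lst] using hj)]
    simp only [lst, List.getElem_map, List.getElem_ofFn]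
    exact e

lemma desB_mk {n : ℕ} (S : Finset ℕ) (σ : Equiv.Perm (Fin n)) :
    desB (mk S σ) = desZ 0 ((lst σ).map (sg S)) := by
  rw [desZ_eq, desB, Finset.card_filter]
  have hl : ((lst σ).map (sg S)).length = n := by simp [lst]
  rw [hl]
  refine Finset.sum_congr rfl fun i hi => ?_
  have hi' := Finset.mem_range.1 hi
  have e1 := val_mk S σ (i + 1) (by omega)
  push_cast at e1
  rw [e1, val_mk S σ i (by omega)]

lemma mk_surj {n : ℕ} (w : Equiv.Perm (PM n)) (hw : IsSigned w) :
    ∃ S ∈ (range n).powerset, ∃ σ : Equiv.Perm (Fin n), mk S σ = w := by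
  let g : Fin n → Fin n := fun i => idx (w (pos i))
  have hg : Function.Injective g := by
    intro i j hij
    have h1 : (w (pos i)).1.natAbs - 1 = (w (pos j)).1.natAbs - 1 := congrArg Fin.val hij
    have h2 := (w (pos i)).2.1
    have h3 := (w (pos j)).2.1
    have h4 := hw (pos j)
    have h5 : (w (pos i)).1 = (w (pos j)).1 ∨ (w (pos i)).1 = (w (pos j).neg).1 := by omega
    rcases h5 with h5 | h5
    · have h6 : (pos i).1 = (pos j).1 := congrArg Subtype.val (w.injective (Subtype.ext h5))
      simp only [pos] at h6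
      exact Fin.ext (by omega)
    · have h6 : (pos i).1 = (pos j).neg.1 := congrArg Subtype.val (w.injective (Subtype.ext h5))
      simp only [pos, PM.neg] at h6
      omega
  let σ : Equiv.Perm (Fin n) := Equiv.ofBijective g (Finite.injective_iff_bijective.1 hg)
  refine ⟨(range n).filter (fun v => ∃ i : Fin n, (w (pos i)).1 = -((v : ℤ) + 1)),
    Finset.mem_powerset.2 (Finset.filter_subset _ _), σ, ?_⟩
  apply signed_ext _ _ (mk_signed _ _) hw
  intro i
  rw [mk_pos]
  have hs : ((σ i : Fin n) : ℕ) = (w (pos i)).1.natAbs - 1 := rfl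
  have h2 := (w (pos i)).2.1
  unfold sg
  split_ifs with h
  · obtain ⟨-, j, hj⟩ := Finset.mem_filter.1 h
    have : j = i := by
      apply hg
      apply Fin.ext
      show (w (pos j)).1.natAbs - 1 = (w (pos i)).1.natAbs - 1
      omega
    subst this
    omega
  · by_contra hc
    apply h
    refine Finset.mem_filter.2 ⟨Finset.mem_range.2 (σ i).2, i, ?_⟩
    omega

lemma mk_inj {n : ℕ} (S T : Finset ℕ) (hS : S ∈ (range n).powerset) (hT : T ∈ (range n).powerset)
    (σ τ : Equiv.Perm (Fin n)) (h : mk S σ = mk T τ) : S = T ∧ σ = τ := by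
  have h1 : ∀ i, sg S (σ i) = sg T (τ i) := fun i => by rw [← mk_pos, ← mk_pos, h]
  have h2 : σ = τ := by
    ext i
    have a := sg_natAbs S (σ i)
    have b := sg_natAbs T (τ i)
    rw [h1 i] at a
    omega
  subst h2
  refine ⟨?_, rfl⟩
  ext v
  by_cases hv : v < n
  · have a := h1 (σ.symm ⟨v, hv⟩)
    simp only [Equiv.apply_symm_apply, sg] at a
    by_cases a1 : v ∈ S <;> by_cases a2 : v ∈ T <;> simp only [a1, a2, if_true, if_false] at a ⊢ <;>
      omega
  · constructor
    · intro h; exact absurd (Finset.mem_range.1 (Finset.mem_powerset.1 hS h)) hv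
    · intro h; exact absurd (Finset.mem_range.1 (Finset.mem_powerset.1 hT h)) hv

lemma typeB_eq (n k : ℕ) (hk : k < n + 1) : (typeB n k : ℝ) = B n k := by
  classical
  have h1 := arrB_sum n (fun d => if d = k then 1 else 0)
  simp only [← perm_sum] at h1
  have h2 : ZB (n + 1) n (fun d => if d = k then 1 else 0) = B n k := by
    unfold ZB
    simp [hk]
  rw [← h2, ← h1, ← Finset.sum_product', Finset.sum_boole]
  congr 1
  let _ : Fintype (PM n) := Fintype.ofFinite _
  unfold typeB
  rw [Nat.card_eq_fintype_card, Fintype.card_subtype]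
  symm
  refine Finset.card_bij (fun p _ => mk p.1 p.2) ?_ ?_ ?_
  · intro p hp
    simp only [Finset.mem_filter, Finset.mem_univ, true_and] at hp ⊢
    exact ⟨mk_signed _ _, by rw [desB_mk]; exact hp.2⟩
  · intro p hp q hq h
    simp only [Finset.mem_filter, Finset.mem_product] at hp hq
    obtain ⟨a, b⟩ := mk_inj _ _ hp.1.1 hq.1.1 _ _ h
    exact Prod.ext a b
  · intro w hw
    simp only [Finset.mem_filter, Finset.mem_univ, true_and] at hw
    obtain ⟨S, hS, σ, rfl⟩ := mk_surj w hw.1
    refine ⟨(S, σ), ?_, rfl⟩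
    simp only [Finset.mem_filter, Finset.mem_product, Finset.mem_univ, and_true]
    exact ⟨hS, by rw [← desB_mk]; exact hw.2⟩

theorem main (x : ℕ → ℝ) (hx : LogConvex x) :
    LogConvex (fun n => ∑ k ∈ range (n + 1), (typeB n k : ℝ) * x k) := by
  refine ⟨fun n => Finset.sum_nonneg fun k _ => mul_nonneg (Nat.cast_nonneg _) (hx.1 k), ?_⟩
  intro n
  have e : ∀ m, ∑ k ∈ range (m + 1), (typeB m k : ℝ) * x k = ZB (m + 1) m x := by
    intro m
    unfold ZB
    refine Finset.sum_congr rfl fun k hk => ?_
    rw [typeB_eq m k (Finset.mem_range.1 hk)]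
  simp only [e]
  exact main_alg x hx.1 hx.2 n

end Pool.Agent.H.MP_209e83_co
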